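import Pool.Agent.H61.NVK.TargetsE1

/-!
# NVK, part E, row EPS: the Epstein zeta function of the lattice and its central value
-/

set_option autoImplicit false

open MeasureTheory Set Filter NumberField NumberField.InfinitePlace
open Pool.Agent.H65.CM4 Pool.Agent.H61.CM4 Pool.Agent.H61.NVK
open scoped Real nonZeroDivisors

namespace Pool.Agent.H38.NVE_EPS

/-- the inverse of the kernel factor -/
noncomputable def G1 (s : ℂ) : ℂ := (2 * (π : ℂ)) ^ s * (Complex.Gamma (s + 1))⁻¹ / (s - 1)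

theorem tp_ne : (2 * (π : ℂ)) ≠ 0 := by
  have h : (π : ℂ) ≠ 0 := by exact_mod_cast Real.pi_pos.ne'
  exact mul_ne_zero two_ne_zero h

theorem G1_diff : DifferentiableOn ℂ G1 {1}ᶜ := by
  intro s hs
  have hs1 : s - 1 ≠ 0 := sub_ne_zero.2 hs
  have h1 : DifferentiableAt ℂ (fun s : ℂ => (2 * (π : ℂ)) ^ s) s :=
    (differentiableAt_id).const_cpow (Or.inl tp_ne)
  have h2 : DifferentiableAt ℂ (fun s : ℂ => (Complex.Gamma (s + 1))⁻¹) s := by
    exact Complex.differentiable_one_div_Gamma.comp (differentiable_id.add_const (1 : ℂ)) s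
  have h3 : DifferentiableAt ℂ (fun s : ℂ => s - 1) s := (differentiable_id.sub_const (1 : ℂ)) s
  exact ((h1.mul h2).div h3 hs1).differentiableWithinAt

theorem gG_G1 {s : ℂ} (h0 : 0 < s.re) (h1 : s ≠ 1) : gG s * G1 s = 1 := by
  have hs0 : s ≠ 0 := by
    intro h; rw [h] at h0; simp at h0
  have hs1 : s - 1 ≠ 0 := sub_ne_zero.2 h1
  have hΓ : Complex.Gamma s ≠ 0 := Complex.Gamma_ne_zero_of_re_pos h0
  have hp : (2 * (π : ℂ)) ^ s ≠ 0 := by
    rw [Ne, Complex.cpow_eq_zero_iff]; exact fun h => tp_ne h.1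
  unfold gG G1
  rw [Complex.Gamma_add_one s hs0, Complex.cpow_neg]
  field_simp

section

variable {k : Type} [Field k] [NumberField k] [IsTotallyReal k]

theorem qp_nonneg {x y : Pl k → ℝ} (hy : ∀ v, 0 < y v) (u : V2 k) : 0 ≤ qp x y u := by
  unfold qp qr
  refine Finset.prod_nonneg fun v _ => ?_
  have := hy v
  positivity

end

theorem pf_EPS (hEZA : T_EZA) (hPSI : T_PSI) (hPSH : T_PSH) (hZFE : T_ZFE) (hLIX : T_LIX)
    (hIXD : T_IXD) : T_EPS := by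
  classical
  intro k _ _ _ A f β d hf hA hd
  have hA0 : A ∈ (Ideal (𝓞 k))⁰ := mem_nonZeroDivisors_of_ne_zero hA
  have hf0 : f ∈ (Ideal (𝓞 k))⁰ := mem_nonZeroDivisors_of_ne_zero hf
  lift A to (Ideal (𝓞 k))⁰ using hA0
  lift f to (Ideal (𝓞 k))⁰ using hf0
  refine ⟨?_, ?_⟩
  · intro a u ha hu
    have ha0 : a ∈ (Ideal (𝓞 k))⁰ := mem_nonZeroDivisors_of_ne_zero ha
    exact (hZFE k ⟨a, ha0⟩ A f β d hd).2.2.1 u hu
  -- notation
  set x : Pl k → ℝ := fun v => β v / 2 with hx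
  set y : Pl k → ℝ := fun v => Real.sqrt (d v) / 2 with hy
  have hyp : ∀ v, 0 < y v := fun v => by
    have := Real.sqrt_pos.2 (hd v)
    simp only [hy]; positivity
  obtain ⟨hdk, hdg, -⟩ := hIXD k
  obtain ⟨hsD, -, -, hzf⟩ := hZFE k 1 A f β d hd
  have hnf : ∀ (c : ClassGroup (𝓞 k)) (u : V2 k),
      nf (ci c) (A : Ideal (𝓞 k)) f β d u * nm (f : Ideal (𝓞 k)) / sD d =
        qp x y u / ix (Lb (ci c) ((A : Ideal (𝓞 k)) * (f : Ideal (𝓞 k)))) := fun c u =>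
    (hZFE k (cr c) A f β d hd).2.1 u
  have hNf : 0 < nm (f : Ideal (𝓞 k)) := lt_of_lt_of_le one_pos (hLIX k 1 f).2.2.2
  obtain ⟨Ψ, hΨd, hΨb, hΨs, hΨ⟩ := hPSI k (A * f) x y hyp
  have hB : ((A * f : (Ideal (𝓞 k))⁰) : Ideal (𝓞 k)) = (A : Ideal (𝓞 k)) * f := by push_cast; rfl
  have hhalf := hPSH k (A * f) x y Ψ hyp hΨd hΨb hΨs hΨ
  rw [hB] at hhalf
  simp only [hB] at hΨ
  set B : Ideal (𝓞 k) := (A : Ideal (𝓞 k)) * f with hBdef
  have hix : ∀ c : ClassGroup (𝓞 k), ix (Lb (ci c) B) ≠ 0 := fun c => by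
    have h := (hLIX k (cr c) (A * f)).2.1
    rw [hB] at h
    exact h
  set n := dg k with hn
  set r : ℝ := sD d / nm (f : Ideal (𝓞 k)) with hr
  have hr0 : 0 < r := by positivity
  have hrC : ((r : ℝ) : ℂ) ≠ 0 := by exact_mod_cast hr0.ne'
  have hdkC : ((dk k : ℕ) : ℂ) ≠ 0 := by exact_mod_cast hdk.ne'
  refine ⟨fun s => (r : ℂ) ^ (-s) * Ψ s * (dk k : ℂ) ^ (-s) * G1 s ^ n, ?_, ?_, ?_⟩
  · have h1 : Differentiable ℂ (fun s : ℂ => (r : ℂ) ^ (-s)) := fun s =>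
      (differentiableAt_id.neg).const_cpow (Or.inl hrC)
    have h2 : Differentiable ℂ (fun s : ℂ => (dk k : ℂ) ^ (-s)) := fun s =>
      (differentiableAt_id.neg).const_cpow (Or.inl hdkC)
    exact (((h1.mul hΨd).mul h2).differentiableOn).mul (G1_diff.pow n)
  · intro s hs
    have hs1 : s ≠ 1 := by intro h; rw [h] at hs; simp at hs
    -- termwise
    have hterm : ∀ (c : ClassGroup (𝓞 k)) (u : V2 k),
        (r : ℂ) ^ (-s) * (((ix (Lb (ci c) B) : ℝ)⁻¹ * qp x y u : ℝ) : ℂ) ^ (-s) =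
          ((nf (ci c) (A : Ideal (𝓞 k)) f β d u : ℝ) : ℂ) ^ (-s) := by
      intro c u
      have h0 : 0 ≤ (ix (Lb (ci c) B) : ℝ)⁻¹ * qp x y u :=
        mul_nonneg (by positivity) (qp_nonneg hyp u)
      rw [← Complex.mul_cpow_ofReal_nonneg hr0.le h0, ← Complex.ofReal_mul]
      have h1 : r * ((ix (Lb (ci c) B) : ℝ)⁻¹ * qp x y u) =
          nf (ci c) (A : Ideal (𝓞 k)) f β d u := by
        have h2 := hnf c u
        have h3 : (ix (Lb (ci c) B) : ℝ)⁻¹ * qp x y u = qp x y u / ix (Lb (ci c) B) := by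
          rw [div_eq_mul_inv, mul_comm]
        rw [h3, ← h2, hr]
        field_simp
      rw [h1]
    set F : ClassGroup (𝓞 k) × V2 k → ℂ := fun p =>
      if p.2 ∈ Lb (ci p.1) B ∧ p.2 ∈ Fo k then
        ((nf (ci p.1) (A : Ideal (𝓞 k)) f β d p.2 : ℝ) : ℂ) ^ (-s) else 0 with hF
    have hFeq : ∀ (c : ClassGroup (𝓞 k)) (u : V2 k), F (c, u) = (r : ℂ) ^ (-s) *
        (if u ∈ Lb (ci c) B ∧ u ∈ Fo k then
          (((ix (Lb (ci c) B) : ℝ)⁻¹ * qp x y u : ℝ) : ℂ) ^ (-s) else 0) := by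
      intro c u
      simp only [hF]
      split_ifs with h
      · rw [hterm c u]
      · rw [mul_zero]
    have hre : (-s).re ≠ 0 := by rw [Complex.neg_re]; linarith
    have hnorm : ∀ c : ClassGroup (𝓞 k), Summable (fun u : V2 k => ‖F (c, u)‖) := by
      intro c
      have hS := (hEZA k (Lb (ci c) B) x y (hix c) hyp).2.2.1 s.re hs
      have hS2 := hS.mul_left (‖(r : ℂ) ^ (-s)‖ * ((ix (Lb (ci c) B) : ℝ)⁻¹) ^ (-s.re))
      refine hS2.congr fun u => ?_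
      rw [hFeq c u, norm_mul]
      by_cases h : u ∈ Lb (ci c) B ∧ u ∈ Fo k
      · rw [if_pos h, if_pos h, Complex.norm_cpow_eq_rpow_re_of_nonneg
          (mul_nonneg (by positivity) (qp_nonneg hyp u)) hre, Complex.neg_re,
          Real.mul_rpow (by positivity) (qp_nonneg hyp u)]
        ring
      · rw [if_neg h, if_neg h, norm_zero, mul_zero, mul_zero]
    have hsum : Summable F := by
      refine Summable.of_norm ?_
      rw [summable_prod_of_nonneg (fun p => norm_nonneg _)]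
      exact ⟨hnorm, (hasSum_fintype _).summable⟩
    have hval : ∑' p, F p = (r : ℂ) ^ (-s) * Ψ s * (dk k : ℂ) ^ (-s) * G1 s ^ n := by
      rw [hsum.tsum_prod, tsum_fintype, hΨ s hs]
      have h1 : ∀ c : ClassGroup (𝓞 k), ∑' u : V2 k, F (c, u) =
          (r : ℂ) ^ (-s) * Zd (Lb (ci c) B) x y (ix (Lb (ci c) B) : ℝ)⁻¹ s := by
        intro c
        unfold Zd
        rw [← tsum_mul_left]
        refine tsum_congr fun u => ?_
        rw [hFeq c u]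
      rw [Finset.sum_congr rfl fun c _ => h1 c, ← Finset.mul_sum]
      have h2 : gG s ^ n * G1 s ^ n = 1 := by
        rw [← mul_pow, gG_G1 (by linarith) hs1, one_pow]
      have h3 : (dk k : ℂ) ^ s * (dk k : ℂ) ^ (-s) = 1 := by
        rw [← Complex.cpow_add _ _ hdkC, add_neg_cancel, Complex.cpow_zero]
      calc (r : ℂ) ^ (-s) * ∑ c : ClassGroup (𝓞 k),
            Zd (Lb (ci c) B) x y (ix (Lb (ci c) B) : ℝ)⁻¹ s
          = (r : ℂ) ^ (-s) * (∑ c : ClassGroup (𝓞 k),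
            Zd (Lb (ci c) B) x y (ix (Lb (ci c) B) : ℝ)⁻¹ s) * (gG s ^ n * G1 s ^ n) *
            ((dk k : ℂ) ^ s * (dk k : ℂ) ^ (-s)) := by rw [h2, h3, mul_one, mul_one]
        _ = _ := by ring
    have hfin := hsum.hasSum
    rw [hval] at hfin
    exact hfin
  · simp only []
    rw [hhalf, hzf]
    have hh : ((1 / 2 : ℂ)).re = 1 / 2 := by norm_num
    have h2 : gG (1 / 2) ^ n * G1 (1 / 2) ^ n = 1 := by
      rw [← mul_pow, gG_G1 (by rw [hh]; norm_num) (by norm_num), one_pow]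
    have h3 : (dk k : ℂ) ^ (1 / 2 : ℂ) * (dk k : ℂ) ^ (-(1 / 2 : ℂ)) = 1 := by
      rw [← Complex.cpow_add _ _ hdkC, add_neg_cancel, Complex.cpow_zero]
    have h4 : (r : ℂ) ^ (-(1 / 2 : ℂ)) =
        ((Real.sqrt (nm (f : Ideal (𝓞 k))) / Real.sqrt (sD d) : ℝ) : ℂ) := by
      have h5 : (-(1 / 2 : ℂ)) = ((-(1 / 2) : ℝ) : ℂ) := by push_cast; ring
      rw [h5, ← Complex.ofReal_cpow hr0.le]
      congr 1
      rw [Real.rpow_neg hr0.le, ← Real.sqrt_eq_rpow, hr, Real.sqrt_div hsD.le, inv_div]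
    calc (r : ℂ) ^ (-(1 / 2 : ℂ)) * (gG (1 / 2) ^ n * (dk k : ℂ) ^ (1 / 2 : ℂ) *
          ((ze B x y : ℝ) : ℂ)) * (dk k : ℂ) ^ (-(1 / 2 : ℂ)) * G1 (1 / 2) ^ n
        = (r : ℂ) ^ (-(1 / 2 : ℂ)) * ((ze B x y : ℝ) : ℂ) * (gG (1 / 2) ^ n * G1 (1 / 2) ^ n) *
          ((dk k : ℂ) ^ (1 / 2 : ℂ) * (dk k : ℂ) ^ (-(1 / 2 : ℂ))) := by ring
      _ = _ := by
        rw [h2, h3, mul_one, mul_one, h4, ← Complex.ofReal_mul]

end Pool.Agent.H38.NVE_EPS
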