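import Pool.Agent.H61.NVK.TargetsE2
import Pool.Agent.H29.LD.A2

/-! Row E_REG of the board nvk_modules: the residue. -/

set_option autoImplicit false

open MeasureTheory Set Filter NumberField NumberField.InfinitePlace
open Pool.Agent.H65.CM4 Pool.Agent.H61.CM4 Pool.Agent.H61.NVK
open scoped Real nonZeroDivisors

namespace Pool.Agent.H38.NVE_REG

lemma reg_eq (k : Type) [Field k] [NumberField k] :
    NumberField.Units.regulator k = vR k := by
  classical
  unfold NumberField.Units.regulator vR Pool.Agent.H25.HK.Fd
  have h := ZSpan.isAddFundamentalDomain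
    ((NumberField.Units.basisUnitLattice k).ofZLatticeBasis ℝ (NumberField.Units.unitLattice k))
    (volume : Measure (NumberField.Units.dirichletUnitTheorem.logSpace k))
  rw [Module.Basis.ofZLatticeBasis_span] at h
  exact ZLattice.covolume_eq_measure_fundamentalDomain (NumberField.Units.unitLattice k) volume h

theorem pf_REG : T_REG := by
  intro k _ _ _
  have h1 : nrComplexPlaces k = 0 := IsTotallyReal.nrComplexPlaces_eq_zero k
  have h2 : Module.finrank ℚ k = nrRealPlaces k := IsTotallyReal.finrank k
  have hpos : 0 < vR k := by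
    rw [← reg_eq]
    exact NumberField.Units.regulator_pos k
  have hdg : 1 ≤ dg k := by
    unfold dg
    exact Module.finrank_pos
  have htor : NumberField.Units.torsionOrder k = 2 := by
    obtain ⟨v⟩ := (inferInstance : Nonempty (InfinitePlace k))
    exact Pool.Agent.H29.LD.torsionOrder_eq (rv v)
  refine ⟨?_, hdg, hpos⟩
  unfold kp
  rw [dedekindZeta_residue_def, h1, reg_eq, htor, pow_zero, mul_one, ← h2]
  have h3 : (dk k : ℝ) = ((|discr k| : ℤ) : ℝ) := by
    unfold dk
    rw [Nat.cast_natAbs]
  have h4 : (2 : ℝ) ^ Module.finrank ℚ k = 2 * 2 ^ (dg k - 1) := by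
    have : Module.finrank ℚ k = (dg k - 1) + 1 := by
      show dg k = _
      omega
    rw [this, pow_succ]
    ring
  rw [h3, h4]
  push_cast
  rw [mul_assoc, mul_assoc, mul_div_mul_left _ _ (two_ne_zero)]
  ring

end Pool.Agent.H38.NVE_REG
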