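import Pool.Agent.H61.NVK.TargetsE2

/-! Row E_THA of the board nvk_modules: the average of the theta function. -/

set_option autoImplicit false

open MeasureTheory Set Filter NumberField NumberField.InfinitePlace
open Pool.Agent.H65.CM4 Pool.Agent.H61.CM4 Pool.Agent.H61.NVK
open scoped Real nonZeroDivisors

namespace Pool.Agent.H38.NVE_THA

section

variable (k : Type) [Field k] [NumberField k]

lemma card_pl [IsTotallyReal k] : Fintype.card (Pl k) = dg k := by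
  have h1 : nrComplexPlaces k = 0 := IsTotallyReal.nrComplexPlaces_eq_zero k
  have h2 : Module.finrank ℚ k = nrRealPlaces k := IsTotallyReal.finrank k
  have h3 := card_eq_nrRealPlaces_add_nrComplexPlaces (K := k)
  unfold dg
  rw [h2, h3, h1, add_zero]

lemma dg_pos : 0 < dg k := by
  unfold dg
  exact Module.finrank_pos

lemma dk_pos : (0 : ℝ) < dk k := by
  have h : 0 < dk k := by
    unfold dk
    exact Int.natAbs_pos.2 (discr_ne_zero k)
  exact_mod_cast h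

end

/-- arithmetic and geometric mean -/
lemma amgm {ι : Type} [Fintype ι] (n : ℕ) (hn : Fintype.card ι = n) (hn0 : 0 < n) (z : ι → ℝ)
    (hz : ∀ i, 0 ≤ z i) : (n : ℝ) * (∏ i, z i) ^ (1 / (n : ℝ)) ≤ ∑ i, z i := by
  have hnR : (0 : ℝ) < n := by exact_mod_cast hn0
  have h := Real.geom_mean_le_arith_mean_weighted (Finset.univ : Finset ι)
    (fun _ => 1 / (n : ℝ)) z (fun _ _ => by positivity)
    (by rw [Finset.sum_const, Finset.card_univ, hn, nsmul_eq_mul]; field_simp)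
    (fun i _ => hz i)
  rw [Real.finsetProd_rpow _ _ (fun i _ => hz i), ← Finset.mul_sum] at h
  calc (n : ℝ) * (∏ i, z i) ^ (1 / (n : ℝ)) ≤ n * (1 / (n : ℝ) * ∑ i, z i) := by gcongr
    _ = _ := by field_simp

section

variable {k : Type} [Field k] [NumberField k] [IsTotallyReal k]

lemma ex2_ge (y c : Pl k → ℝ) (hy : ∀ v, 0 < y v) (p : k × k) :
    ∑ v, 2 * y v * |rv v p.1 * rv v p.2| ≤ ex2 y c p := by
  unfold ex2
  refine Finset.sum_le_sum fun v _ => ?_
  have h1 : Real.exp (c v) = Real.exp (c v / 2) ^ 2 := by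
    rw [← Real.exp_nat_mul]
    congr 1
    push_cast
    ring
  have h2 : Real.exp (-c v) = Real.exp (-(c v / 2)) ^ 2 := by
    rw [← Real.exp_nat_mul]
    congr 1
    push_cast
    ring
  have h3 : Real.exp (c v / 2) * Real.exp (-(c v / 2)) = 1 := by
    rw [← Real.exp_add]
    simp
  have h4 : 2 * |rv v p.1 * rv v p.2| ≤
      Real.exp (c v) * rv v p.2 ^ 2 + Real.exp (-c v) * rv v p.1 ^ 2 := by
    rw [h1, h2, abs_mul]
    have h5 := sq_nonneg (Real.exp (c v / 2) * |rv v p.2| - Real.exp (-(c v / 2)) * |rv v p.1|)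
    have h6 : |rv v p.1| ^ 2 = rv v p.1 ^ 2 := sq_abs _
    have h7 : |rv v p.2| ^ 2 = rv v p.2 ^ 2 := sq_abs _
    have h8 : (Real.exp (c v / 2) * |rv v p.2| - Real.exp (-(c v / 2)) * |rv v p.1|) ^ 2 =
        Real.exp (c v / 2) ^ 2 * |rv v p.2| ^ 2 + Real.exp (-(c v / 2)) ^ 2 * |rv v p.1| ^ 2 -
        2 * (Real.exp (c v / 2) * Real.exp (-(c v / 2))) * (|rv v p.1| * |rv v p.2|) := by ring
    rw [h8, h3, h6, h7] at h5
    linarith
  calc 2 * y v * |rv v p.1 * rv v p.2| = y v * (2 * |rv v p.1 * rv v p.2|) := by ring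
    _ ≤ _ := mul_le_mul_of_nonneg_left h4 (hy v).le

lemma ex2_nonneg (y c : Pl k → ℝ) (hy : ∀ v, 0 < y v) (p : k × k) : 0 ≤ ex2 y c p := by
  unfold ex2
  refine Finset.sum_nonneg fun v _ => ?_
  have := hy v
  positivity

lemma exp_le_EE (y c : Pl k → ℝ) (hy : ∀ v, 0 < y v) (p : k × k) (N : ℝ) (hN : 0 < N)
    (h : 2 ^ dg k / (N * dk k) ≤ ∏ v, |rv v p.1 * rv v p.2|) :
    Real.exp (-(π / 2) * ex2 y c p) ≤ EE (k := k) (∏ v, (2 * y v)) N := by
  unfold EE
  apply Real.exp_le_exp.2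
  have hn0 := dg_pos k
  have hd0 := dk_pos k
  have hnR : (0 : ℝ) < dg k := by exact_mod_cast hn0
  have h1 := amgm (dg k) (card_pl k) hn0 (fun v : Pl k => 2 * y v * |rv v p.1 * rv v p.2|)
    (fun v => by have := hy v; positivity)
  have hY : 0 ≤ ∏ v : Pl k, (2 * y v) :=
    Finset.prod_nonneg fun v _ => by have := hy v; positivity
  have h2 : 2 ^ dg k * ((∏ v : Pl k, (2 * y v)) / (N * dk k)) ≤
      ∏ v : Pl k, (2 * y v * |rv v p.1 * rv v p.2|) := by
    have hd : ∏ v : Pl k, (2 * y v * |rv v p.1 * rv v p.2|) =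
        (∏ v : Pl k, (2 * y v)) * ∏ v : Pl k, |rv v p.1 * rv v p.2| := Finset.prod_mul_distrib
    rw [hd]
    calc 2 ^ dg k * ((∏ v : Pl k, (2 * y v)) / (N * dk k)) =
          (∏ v : Pl k, (2 * y v)) * (2 ^ dg k / (N * dk k)) := by ring
      _ ≤ _ := mul_le_mul_of_nonneg_left h hY
  have h3 : (2 ^ dg k * ((∏ v : Pl k, (2 * y v)) / (N * dk k))) ^ (1 / (dg k : ℝ)) =
      2 * ((∏ v : Pl k, (2 * y v)) / (N * dk k)) ^ (1 / (dg k : ℝ)) := by
    rw [Real.mul_rpow (by positivity) (by positivity), ← Real.rpow_natCast 2,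
      ← Real.rpow_mul (by norm_num), mul_one_div_cancel hnR.ne', Real.rpow_one]
  have h4 : (2 ^ dg k * ((∏ v : Pl k, (2 * y v)) / (N * dk k))) ^ (1 / (dg k : ℝ)) ≤
      (∏ v : Pl k, (2 * y v * |rv v p.1 * rv v p.2|)) ^ (1 / (dg k : ℝ)) :=
    Real.rpow_le_rpow (by positivity) h2 (by positivity)
  rw [h3] at h4
  have h5 := ex2_ge y c hy p
  have h6 : (dg k : ℝ) * (2 * ((∏ v : Pl k, (2 * y v)) / (N * dk k)) ^ (1 / (dg k : ℝ))) ≤
      ex2 y c p := ((mul_le_mul_of_nonneg_left h4 hnR.le).trans h1).trans h5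
  have h7 := mul_le_mul_of_nonneg_left h6 (by positivity : 0 ≤ π / 2)
  have h8 : π / 2 * ((dg k : ℝ) *
      (2 * ((∏ v : Pl k, (2 * y v)) / (N * dk k)) ^ (1 / (dg k : ℝ)))) =
      π * dg k * ((∏ v : Pl k, (2 * y v)) / (N * dk k)) ^ (1 / (dg k : ℝ)) := by ring
  rw [h8] at h7
  linarith

end

theorem pf_THA (hSPL : T_SPL) (hAVC : T_AVC) (hFRI : T_FRI) : T_THA := by
  classical
  intro k _ _ _ I J B h R β y c hI hJ hy hIJ hR
  have hRne : R.Nonempty := by
    obtain ⟨r, hr, _⟩ := hR.ex 0 (Ideal.zero_mem _)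
    exact ⟨r, hr⟩
  have hRc : (0 : ℝ) < R.card := by exact_mod_cast hRne.card_pos
  obtain ⟨x, hx⟩ : ∃ x : 𝓞 k → Pl k → ℝ, x = fun j v => (β v + ev j v) / 2 := ⟨_, rfl⟩
  obtain ⟨g, hg⟩ : ∃ g : 𝓞 k → k × k → ℝ, g = fun j p =>
      if (p.1 ∈ dF I ∧ p.1 ≠ 0) ∧ p.2 ∈ J ∧ p.2 ≠ 0 then
      Real.exp (-π * ex2 y c p) * Real.cos (2 * π * ∑ v, rv v p.1 * (rv v p.2 * x j v)) else 0 :=
    ⟨_, rfl⟩
  obtain ⟨w, hw⟩ : ∃ w : k × k → ℝ, w = fun p =>
      if (p.1 ∈ dF I ∧ p.1 ≠ 0) ∧ p.2 ∈ J ∧ p.2 ≠ 0 then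
      Real.exp (-(π / 2) * ex2 y c p) else 0 := ⟨_, rfl⟩
  have hsw : Summable w := by
    rw [hw]
    exact (hSPL k I J (fun _ => 0) y c hI hJ hy).2.1
  have hwSS : ∑' p, w p = SS (dF I) J y c := by
    rw [hw]
    rfl
  have hw0 : ∀ p, 0 ≤ w p := fun p => by
    rw [hw]
    dsimp only
    split_ifs
    · exact (Real.exp_pos _).le
    · exact le_refl _
  have hex : ∀ p, Real.exp (-π * ex2 y c p) =
      Real.exp (-(π / 2) * ex2 y c p) * Real.exp (-(π / 2) * ex2 y c p) := fun p => by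
    rw [← Real.exp_add]
    congr 1
    ring
  have hex1 : ∀ p, Real.exp (-(π / 2) * ex2 y c p) ≤ 1 := fun p => by
    apply Real.exp_le_one_iff.2
    have := ex2_nonneg y c hy p
    have h1 : 0 ≤ π / 2 * ex2 y c p := by positivity
    linarith
  have hgw : ∀ j p, |g j p| ≤ w p := fun j p => by
    rw [hg, hw]
    dsimp only
    split_ifs
    · rw [abs_mul, abs_of_pos (Real.exp_pos _), hex p]
      have h1 := Real.abs_cos_le_one (2 * π * ∑ v, rv v p.1 * (rv v p.2 * x j v))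
      have h2 := hex1 p
      have h3 := (Real.exp_pos (-(π / 2) * ex2 y c p)).le
      calc Real.exp (-(π / 2) * ex2 y c p) * Real.exp (-(π / 2) * ex2 y c p) *
            |Real.cos (2 * π * ∑ v, rv v p.1 * (rv v p.2 * x j v))|
          ≤ Real.exp (-(π / 2) * ex2 y c p) * 1 * 1 := by gcongr
        _ = _ := by ring
    · rw [abs_zero]
  have hsg : ∀ j, Summable (g j) := fun j =>
    Summable.of_norm_bounded hsw (fun p => by rw [Real.norm_eq_abs]; exact hgw j p)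
  have hT : ∀ j, T2 I J (x j) y c = Z0 I J y c + eF I y c * ∑' p, g j p := fun j => by
    have := (hSPL k I J (x j) y c hI hJ hy).2.2
    rw [this, hg]
  have hsum : (1 / (R.card : ℝ)) * ∑ j ∈ R, T2 I J (x j) y c - Z0 I J y c =
      eF I y c * ∑' p, (1 / (R.card : ℝ)) * ∑ j ∈ R, g j p := by
    have h1 : ∑' p, (1 / (R.card : ℝ)) * ∑ j ∈ R, g j p =
        (1 / (R.card : ℝ)) * ∑ j ∈ R, ∑' p, g j p := by
      rw [tsum_mul_left, Summable.tsum_finsetSum (fun j _ => hsg j)]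
    rw [h1, Finset.sum_congr rfl (fun j _ => hT j), Finset.sum_add_distrib, Finset.sum_const,
      ← Finset.mul_sum, nsmul_eq_mul]
    field_simp
    ring
  have heF : 0 ≤ eF I y c := by
    unfold eF
    have h1 := ((hFRI k 1 1).2.2.2.2.2.2.1 I hI).2.1
    positivity
  -- the bound of the average
  obtain ⟨Ev, hEv⟩ : ∃ Ev : ℝ, Ev = EE (k := k) (∏ v : Pl k, (2 * y v))
    (nm (h : Ideal (𝓞 k))) := ⟨_, rfl⟩
  have hEv0 : 0 ≤ Ev := by
    rw [hEv]
    exact (Real.exp_pos _).le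
  have hN : 0 < nm (h : Ideal (𝓞 k)) := by
    unfold nm
    have h1 : Ideal.absNorm (h : Ideal (𝓞 k)) ≠ 0 := by
      rw [Ne, Ideal.absNorm_eq_zero_iff]
      exact nonZeroDivisors.coe_ne_zero h
    exact_mod_cast Nat.pos_of_ne_zero h1
  have hkey : ∀ p, |(1 / (R.card : ℝ)) * ∑ j ∈ R, g j p| ≤ Ev * w p := fun p => by
    by_cases hp : (p.1 ∈ dF I ∧ p.1 ≠ 0) ∧ p.2 ∈ J ∧ p.2 ≠ 0
    · have h1 : ∑ j ∈ R, g j p = Real.exp (-π * ex2 y c p) *
          ∑ j ∈ R, Real.cos (2 * π * ∑ v, rv v p.1 * (rv v p.2 * ((β v + ev j v) / 2))) := by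
        rw [Finset.mul_sum]
        refine Finset.sum_congr rfl fun j _ => ?_
        rw [hg, hx]
        dsimp only
        rw [if_pos hp]
      have h2 : w p = Real.exp (-(π / 2) * ex2 y c p) := by
        rw [hw]
        dsimp only
        rw [if_pos hp]
      by_cases h0 : ∑ j ∈ R, Real.cos (2 * π * ∑ v, rv v p.1 *
          (rv v p.2 * ((β v + ev j v) / 2))) = 0
      · rw [h1, h0, mul_zero, mul_zero, abs_zero]
        exact mul_nonneg hEv0 (hw0 p)
      · have h3 := hAVC k I J B h R β p hI hJ hIJ hR hp.1 hp.2 h0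
        have h4 := exp_le_EE y c hy p (nm (h : Ideal (𝓞 k))) hN h3
        rw [← hEv] at h4
        have h5 : |∑ j ∈ R, Real.cos (2 * π * ∑ v, rv v p.1 *
            (rv v p.2 * ((β v + ev j v) / 2)))| ≤ R.card := by
          refine (Finset.abs_sum_le_sum_abs _ _).trans ?_
          calc _ ≤ ∑ j ∈ R, (1 : ℝ) := Finset.sum_le_sum fun j _ => Real.abs_cos_le_one _
            _ = _ := by rw [Finset.sum_const, nsmul_eq_mul, mul_one]
        rw [h1, h2, abs_mul, abs_mul, abs_of_pos (Real.exp_pos _), hex p,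
          abs_of_pos (by positivity : 0 < 1 / (R.card : ℝ))]
        have h6 := (Real.exp_pos (-(π / 2) * ex2 y c p)).le
        calc 1 / (R.card : ℝ) * (Real.exp (-(π / 2) * ex2 y c p) *
              Real.exp (-(π / 2) * ex2 y c p) * |∑ j ∈ R, Real.cos (2 * π * ∑ v, rv v p.1 *
            (rv v p.2 * ((β v + ev j v) / 2)))|)
            ≤ 1 / (R.card : ℝ) * (Ev * Real.exp (-(π / 2) * ex2 y c p) * R.card) := by gcongr
          _ = _ := by field_simp
    · have h1 : ∀ j ∈ R, g j p = 0 := fun j _ => by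
        rw [hg]
        dsimp only
        rw [if_neg hp]
      rw [Finset.sum_eq_zero h1, mul_zero, abs_zero]
      exact mul_nonneg hEv0 (hw0 p)
  have hfin : |∑' p, (1 / (R.card : ℝ)) * ∑ j ∈ R, g j p| ≤ Ev * SS (dF I) J y c := by
    rw [← hwSS, ← Real.norm_eq_abs]
    exact tsum_of_norm_bounded (hsw.hasSum.mul_left Ev) (fun p => by
      rw [Real.norm_eq_abs]; exact hkey p)
  have hxx : (fun j : 𝓞 k => T2 I J (fun v => (β v + ev j v) / 2) y c) =
      fun j => T2 I J (x j) y c := by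
    rw [hx]
  have hgoal : (1 / (R.card : ℝ)) * ∑ j ∈ R, T2 I J (fun v => (β v + ev j v) / 2) y c -
      Z0 I J y c = eF I y c * ∑' p, (1 / (R.card : ℝ)) * ∑ j ∈ R, g j p := by
    rw [← hsum, hx]
  rw [hgoal, abs_mul, abs_of_nonneg heF, ← hEv, mul_assoc]
  exact mul_le_mul_of_nonneg_left hfin heF

end Pool.Agent.H38.NVE_THA
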